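import Pool.Agent.H746Z.QU.Gadget

set_option autoImplicit false

/-! Over a field, the gadget forces the cross ratio on its line to be a root of `x^2 - x + 1`. -/

namespace Pool.Agent.H746Z.QU

open Matrix

theorem alg {F : Type} [Field F]
    (x00 x10 x01 x11 x02 x12 x22 x32 x03 x33 x04 x24 x34 x05 x15 x25 x35 x26 x36 : F)
    (n00 : x00 ≠ 0) (n10 : x10 ≠ 0) (n01 : x01 ≠ 0) (n02 : x02 ≠ 0) (n22 : x22 ≠ 0)
    (n32 : x32 ≠ 0) (n03 : x03 ≠ 0) (n04 : x04 ≠ 0) (n05 : x05 ≠ 0) (n26 : x26 ≠ 0)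
    (R1 : x00 * x12 - x02 * x10 = 0) (R2 : x00 * x15 - x05 * x10 = 0)
    (R3 : x02 * x33 - x03 * x32 = 0) (R4 : x02 * x34 - x04 * x32 = 0)
    (R5 : x02 * x35 - x05 * x32 = 0) (R6 : x22 * x36 - x26 * x32 = 0)
    (R7 : x24 * x35 - x25 * x34 = 0)
    (R8 : x02 * x11 * x24 - x01 * x12 * x24 - x04 * x11 * x22 = 0)
    (R9 : x01 * x15 * x26 * x33 - x03 * x11 * x25 * x36 + x03 * x11 * x26 * x35
      - x05 * x11 * x26 * x33 = 0) :
    (x11 * x00) ^ 2 - (x11 * x00) * (x01 * x10) + (x01 * x10) ^ 2 = 0 := by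
  obtain rfl : x12 = x02 * x10 / x00 := by field_simp; linear_combination R1
  obtain rfl : x15 = x05 * x10 / x00 := by field_simp; linear_combination R2
  obtain rfl : x33 = x03 * x32 / x02 := by field_simp; linear_combination R3
  obtain rfl : x34 = x04 * x32 / x02 := by field_simp; linear_combination R4
  obtain rfl : x35 = x05 * x32 / x02 := by field_simp; linear_combination R5
  obtain rfl : x36 = x26 * x32 / x22 := by field_simp; linear_combination R6
  obtain rfl : x25 = x24 * x05 / x04 := by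
    have : x32 / x02 * (x24 * x05 - x25 * x04) = 0 := by
      rw [← R7]; field_simp
    rcases mul_eq_zero.1 this with h | h
    · exact absurd h (by simp [n32, n02])
    · field_simp
      linear_combination (-1) * h
  obtain ⟨a, rfl⟩ : ∃ a, x11 = a * (x01 * x10 / x00) := ⟨x11 * x00 / (x01 * x10), by field_simp⟩
  obtain ⟨c, rfl⟩ : ∃ c, x24 = c * (x04 * x22 / x02) := ⟨x24 * x02 / (x04 * x22), by field_simp⟩
  have h8 : a * c - c - a = 0 := by
    have : (x01 * x10 * x04 * x22 / x00) * (a * c - c - a) = 0 := by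
      rw [← R8]; field_simp
    rcases mul_eq_zero.1 this with h | h
    · exact absurd h (by simp [n00, n01, n10, n04, n22])
    · exact h
  have h9 : 1 - a * c = 0 := by
    have : (x01 * x05 * x10 * x26 * x03 * x32 / (x00 * x02)) * (1 - a * c) = 0 := by
      rw [← R9]; field_simp; ring
    rcases mul_eq_zero.1 this with h | h
    · exact absurd h (by simp [n00, n01, n10, n02, n03, n05, n26, n32])
    · exact h
  have h10 : a ^ 2 - a + 1 = 0 := by linear_combination (-a) * h8 + (1 - a) * h9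
  have : (a * (x01 * x10 / x00) * x00) = a * (x01 * x10) := by field_simp
  rw [this]
  linear_combination (x01 * x10) ^ 2 * h10

theorem det4 {F : Type} [Field F] (M : Matrix (Fin 4) (Fin 4) F) (h1 : M 2 0 = 0) (h2 : M 3 0 = 0)
    (h3 : M 1 1 = 0) (h4 : M 2 1 = 0) (h5 : M 0 3 = 0) (h6 : M 1 3 = 0) :
    M.det = M 0 0 * M 1 2 * M 2 3 * M 3 1 - M 0 1 * M 1 0 * M 2 2 * M 3 3
      + M 0 1 * M 1 0 * M 2 3 * M 3 2 - M 0 2 * M 1 0 * M 2 3 * M 3 1 := by
  rw [Matrix.det_succ_column_zero]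
  simp [Fin.sum_univ_succ, Matrix.det_fin_three, Fin.succAbove, h1, h2, h3, h4, h5, h6]
  ring

/-- The gadget matrix. -/
def GM : Matrix (Fin 4) (Fin 7) K := Matrix.of fun s j => G j s

theorem not_isUnit_of_ker (φ : K →+* H) {k : ℕ} (M : Matrix (Fin k) (Fin k) K) (x : Fin k → K)
    (hx : M *ᵥ x = 0) (b : Fin k) (hb : x b = 1) : ¬ IsUnit (M.map φ) := by
  intro h
  obtain ⟨u, hu⟩ := h
  have h1 : (M.map φ) *ᵥ (φ ∘ x) = 0 := by
    funext i
    rw [← RingHom.map_mulVec, hx]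
    simp
  have h2 : (φ ∘ x) = 0 := by
    have := congrArg (fun v => (↑u⁻¹ : Matrix (Fin k) (Fin k) H) *ᵥ v) h1
    simpa [← hu, Matrix.mulVec_mulVec] using this
  have := congrFun h2 b
  simp [hb] at this

theorem forced {F : Type} [Field F] (φ : K →+* H) (X : Matrix (Fin 4) (Fin 7) F)
    (hX : ∀ (k : ℕ) (g : Fin k → Fin 4) (h : Fin k → Fin 7), Function.Injective g →
      (IsUnit ((GM.map φ).submatrix g h) ↔ (X.submatrix g h).det ≠ 0)) :
    X 0 0 ≠ 0 ∧ X 1 0 ≠ 0 ∧ X 0 1 ≠ 0 ∧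
      (X 1 1 * X 0 0) ^ 2 - (X 1 1 * X 0 0) * (X 0 1 * X 1 0) + (X 0 1 * X 1 0) ^ 2 = 0 := by
  have zero : ∀ (k : ℕ) (g : Fin k → Fin 4) (h : Fin k → Fin 7), Function.Injective g →
      ∀ (x : Fin k → K) (b : Fin k), (GM.submatrix g h) *ᵥ x = 0 → x b = 1 →
        (X.submatrix g h).det = 0 := by
    intro k g h hg x b hx hb
    by_contra h0
    exact not_isUnit_of_ker φ _ x hx b hb ((hX k g h hg).2 h0)
  have ez : ∀ s j, G j s = 0 → X s j = 0 := by
    intro s j h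
    have := zero 1 (fun _ => s) (fun _ => j) (Function.injective_of_subsingleton _) (fun _ => 1) 0
      (by funext i; simp [Matrix.mulVec, dotProduct, GM, h]) rfl
    simpa using this
  have en : ∀ s j, G j s = 1 → X s j ≠ 0 := by
    intro s j h
    have h1 : (GM.map φ).submatrix (fun _ : Fin 1 => s) (fun _ : Fin 1 => j) = 1 := by
      refine Matrix.ext fun a b => ?_
      simp [GM, h, Matrix.one_apply, Subsingleton.elim a b]
    have := (hX 1 (fun _ => s) (fun _ => j) (Function.injective_of_subsingleton _)).1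
      (by rw [h1]; exact isUnit_one)
    simpa using this
  have R1 := zero 2 ![0, 1] ![0, 2] (by decide) ![1, -1] 0 (by decide) rfl
  have R2 := zero 2 ![0, 1] ![0, 5] (by decide) ![1, -1] 0 (by decide) rfl
  have R3 := zero 2 ![0, 3] ![2, 3] (by decide) ![1, -1] 0 (by decide) rfl
  have R4 := zero 2 ![0, 3] ![2, 4] (by decide) ![1, -1] 0 (by decide) rfl
  have R5 := zero 2 ![0, 3] ![2, 5] (by decide) ![1, -1] 0 (by decide) rfl
  have R6 := zero 2 ![2, 3] ![2, 6] (by decide) ![1, -1] 0 (by decide) rfl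
  have R7 := zero 2 ![2, 3] ![4, 5] (by decide) ![1, -1] 0 (by decide) rfl
  have R8 := zero 3 ![0, 1, 2] ![2, 1, 4] (by decide) ![1, wK - 1, -wK] 0 (by decide) rfl
  have R9 := zero 4 ![0, 1, 2, 3] ![1, 3, 5, 6] (by decide) ![wK - 1, -wK, 1, wK - 1] 2
    (by decide) rfl
  have z14 := ez 1 4 (by decide)
  have z21 := ez 2 1 (by decide)
  have z31 := ez 3 1 (by decide)
  have z13 := ez 1 3 (by decide)
  have z23 := ez 2 3 (by decide)
  have z06 := ez 0 6 (by decide)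
  have z16 := ez 1 6 (by decide)
  rw [Matrix.det_fin_two] at R1 R2 R3 R4 R5 R6 R7
  rw [Matrix.det_fin_three] at R8
  rw [det4 _ z21 z31 z13 z23 z06 z16] at R9
  replace R8 : X 0 2 * X 1 1 * X 2 4 - X 0 2 * X 1 4 * X 2 1 - X 0 1 * X 1 2 * X 2 4
      + X 0 1 * X 1 4 * X 2 2 + X 0 4 * X 1 2 * X 2 1 - X 0 4 * X 1 1 * X 2 2 = 0 := R8
  rw [z14, z21] at R8
  refine ⟨en 0 0 (by decide), en 1 0 (by decide), en 0 1 (by decide), ?_⟩
  exact alg (X 0 0) (X 1 0) (X 0 1) (X 1 1) (X 0 2) (X 1 2) (X 2 2) (X 3 2) (X 0 3) (X 3 3)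
    (X 0 4) (X 2 4) (X 3 4) (X 0 5) (X 1 5) (X 2 5) (X 3 5) (X 2 6) (X 3 6)
    (en 0 0 (by decide)) (en 1 0 (by decide)) (en 0 1 (by decide)) (en 0 2 (by decide))
    (en 2 2 (by decide)) (en 3 2 (by decide)) (en 0 3 (by decide)) (en 0 4 (by decide))
    (en 0 5 (by decide)) (en 2 6 (by decide)) R1 R2 R3 R4 R5 R6 R7
    (by linear_combination R8) R9

end Pool.Agent.H746Z.QU
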