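import Pool.Agent.H746Z.QU.Study

set_option autoImplicit false

/-! The line with six points and the rank four gadgets glued onto it. -/

namespace Pool.Agent.H746Z.QU

open Matrix

/-- Norm zero or one. -/
def N01 (z : H) : Prop := Quaternion.normSq z = 0 ∨ Quaternion.normSq z = 1

theorem N01.eq_one {z : H} (h : N01 z) (hz : z ≠ 0) : Quaternion.normSq z = 1 := by
  rcases h with h | h
  · exact absurd (Quaternion.normSq_eq_zero.1 h) hz
  · exact h

theorem N01.mul {z u : H} (h : N01 z) (hu : Quaternion.normSq u = 1) : N01 (z * u) := by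
  unfold N01 at *
  rw [map_mul, hu, mul_one]
  exact h

section
variable {ρ : Type} [DecidableEq ρ]

/-- Vectors supported on one row, with norm zero or one. -/
def L1 (x : ρ) : Set (ρ → H) := {w | (∀ i, i ≠ x → w i = 0) ∧ N01 (w x)}

theorem TU_L1 (x : ρ) : TU (L1 x) := by
  apply TU_elim _ x
  · refine TU.mono ?_ TU_zero
    rintro _ ⟨w, hw, rfl⟩
    rw [Set.mem_singleton_iff]
    funext i
    by_cases h : i = x
    · subst h; simp
    · simp [Function.update_of_ne h, hw.1 i h]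
  · intro v hv hv0
    refine ⟨hv.2.eq_one hv0, TU.mono ?_ TU_zero⟩
    rintro _ ⟨w, hw, rfl⟩
    rw [Set.mem_singleton_iff]
    funext i
    by_cases h : i = x
    · subst h; simp [piv, ← mul_assoc, mul_inv_cancel₀ hv0]
    · simp [piv, hw.1 i h, hv.1 i h]

/-- Unit multiples of the points of the line with slopes in `T` or infinite, and zero. -/
def Sset (x1 x2 : ρ) (T : Set H) : Set (ρ → H) :=
  {w | (∀ i, i ≠ x1 → i ≠ x2 → w i = 0) ∧
    ((w x1 = 0 ∧ N01 (w x2)) ∨ (Quaternion.normSq (w x1) = 1 ∧ ∃ t ∈ T, w x2 = t * w x1))}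

theorem TU_S (x1 x2 : ρ) (hx : x1 ≠ x2) (T : Set H) (hT0 : ∀ t ∈ T, N01 t)
    (hT : ∀ t ∈ T, ∀ t' ∈ T, N01 (t - t')) : TU (Sset x1 x2 T) := by
  apply TU_elim _ x1
  · refine TU.mono ?_ (TU_L1 x2)
    rintro _ ⟨w, hw, rfl⟩
    refine ⟨fun i hi => ?_, ?_⟩
    · by_cases h : i = x1
      · subst h; simp
      · simp [Function.update_of_ne h, hw.1 i h hi]
    · simp only [Function.update_of_ne hx.symm]
      rcases hw.2 with h | ⟨h1, t, ht, h2⟩
      · exact h.2
      · rw [h2]; exact (hT0 t ht).mul h1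
  · intro v hv hv0
    rcases hv.2 with h | ⟨h1, t, ht, h2⟩
    · exact absurd h.1 hv0
    refine ⟨h1, TU.mono ?_ (TU_L1 x2)⟩
    rintro _ ⟨w, hw, rfl⟩
    refine ⟨fun i hi => ?_, ?_⟩
    · by_cases h : i = x1
      · subst h; simp [piv, ← mul_assoc, mul_inv_cancel₀ hv0]
      · simp [piv, hw.1 i h hi, hv.1 i h hi]
    · rcases hw.2 with h | ⟨h3, t', ht', h4⟩
      · simpa [piv, h.1] using h.2
      · have : piv x1 v w x2 = (t' - t) * w x1 := by
          simp only [piv, h2, h4, sub_mul]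
          rw [mul_assoc t, ← mul_assoc (v x1), mul_inv_cancel₀ hv0, one_mul]
        rw [this]
        exact (hT t' ht' t ht).mul h3

end

/-- Eisenstein integers, generated by a root of `x^2 - x + 1`. -/
abbrev K := QuadraticAlgebra ℤ (-1) 1

/-- The norm form. -/
def nK (z : K) : ℤ := z.re * z.re + z.re * z.im + z.im * z.im

/-- The conjugate. -/
def cK (z : K) : K := ⟨z.re + z.im, -z.im⟩

/-- The generator. -/
def wK : K := ⟨0, 1⟩

theorem mul_cK {z : K} (h : nK z = 1) : z * cK z = 1 := by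
  unfold nK at h
  ext
  · show z.re * (z.re + z.im) + (-1) * z.im * (-z.im) = 1
    linear_combination h
  · show z.re * (-z.im) + z.im * (z.re + z.im) + 1 * z.im * (-z.im) = 0
    ring

/-- Pivot operation over `K`. -/
def pivK (y : Fin 4) (v w : Fin 4 → K) : Fin 4 → K := fun i => w i - v i * (cK (v y) * w y)

/-- Zeroing a coordinate. -/
def zK (y : Fin 4) (w : Fin 4 → K) : Fin 4 → K := fun i => if i = y then 0 else w i

/-- A vector on the four point line. -/
def good (w : Fin 4 → K) : Prop :=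
  w 2 = 0 ∧ w 3 = 0 ∧ ((w 0 = 0 ∧ (nK (w 1) = 0 ∨ nK (w 1) = 1)) ∨
    (nK (w 0) = 1 ∧ (w 1 = 0 ∨ w 1 = w 0 ∨ w 1 = wK * w 0)))

instance (w : Fin 4 → K) : Decidable (good w) := by unfold good; infer_instance

/-- The seven non-basis columns of the gadget. -/
def G : Fin 7 → Fin 4 → K :=
  ![![1, 1, 0, 0], ![1, wK, 0, 0], ![1, 1, 1, 1], ![1, 0, 0, 1], ![1, 0, 1 - wK, 1],
    ![1, 1, 1 - wK, 1], ![0, 0, 1, 1]]

/-- Check for the elimination of the last row. -/
def P1 (c : Fin 7 → Fin 4 → K) : Prop :=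
  (∀ j, good (zK 3 (c j))) ∧ ∀ a, c a 3 ≠ 0 → nK (c a 3) = 1 ∧ ∀ j, good (pivK 3 (c a) (c j))

instance (c : Fin 7 → Fin 4 → K) : Decidable (P1 c) := by unfold P1; infer_instance

theorem check0 : P1 (fun j => zK 2 (G j)) := by decide +kernel

theorem check1 : ∀ b, G b 2 ≠ 0 → nK (G b 2) = 1 ∧ P1 (fun j => pivK 2 (G b) (G j)) := by
  decide +kernel

section
variable {ρ : Type} [DecidableEq ρ] (φ : K →+* H) (ι : Fin 4 → ρ)

/-- Embedding of a gadget vector. -/
noncomputable def emb (w : Fin 4 → K) : ρ → H := Function.extend ι (fun s => φ (w s)) 0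

variable {ι}

omit [DecidableEq ρ] in
theorem emb_apply (hι : Function.Injective ι) (w : Fin 4 → K) (s : Fin 4) :
    emb φ ι w (ι s) = φ (w s) := hι.extend_apply _ _ s

omit [DecidableEq ρ] in
theorem emb_of_not (w : Fin 4 → K) (r : ρ) (hr : ¬ ∃ s, ι s = r) : emb φ ι w r = 0 := by
  simp [emb, Function.extend_apply' _ _ _ hr]

theorem update_emb (hι : Function.Injective ι) (w : Fin 4 → K) (y : Fin 4) :
    Function.update (emb φ ι w) (ι y) 0 = emb φ ι (zK y w) := by
  funext r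
  by_cases hr : ∃ s, ι s = r
  · obtain ⟨s, rfl⟩ := hr
    rw [emb_apply φ hι]
    by_cases hs : s = y
    · subst hs; simp [zK]
    · rw [Function.update_of_ne (hι.ne hs), emb_apply φ hι]; simp [zK, hs]
  · have : r ≠ ι y := fun h => hr ⟨y, h.symm⟩
    rw [Function.update_of_ne this, emb_of_not φ _ _ hr, emb_of_not φ _ _ hr]

omit [DecidableEq ρ] in
theorem piv_emb (hι : Function.Injective ι) (v w : Fin 4 → K) (y : Fin 4) (h : nK (v y) = 1) :
    piv (ι y) (emb φ ι v) (emb φ ι w) = emb φ ι (pivK y v w) := by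
  have hinv : (φ (v y))⁻¹ = φ (cK (v y)) := by
    apply inv_eq_of_mul_eq_one_right
    rw [← map_mul, mul_cK h, map_one]
  funext r
  by_cases hr : ∃ s, ι s = r
  · obtain ⟨s, rfl⟩ := hr
    simp only [piv, emb_apply φ hι, pivK, hinv, map_sub, map_mul]
  · simp only [piv, emb_of_not φ _ _ hr, zero_mul, sub_zero]

theorem TU_step (hφ : ∀ z, Quaternion.normSq (φ z) = (nK z : ℝ)) (hι : Function.Injective ι)
    (A : Set (ρ → H)) (y : Fin 4) (hA : ∀ w ∈ A, w (ι y) = 0) (c : Fin 7 → Fin 4 → K)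
    (h0 : TU (A ∪ Set.range fun j => emb φ ι (zK y (c j))))
    (h1 : ∀ a, c a y ≠ 0 → nK (c a y) = 1 ∧
      TU (A ∪ Set.range fun j => emb φ ι (pivK y (c a) (c j)))) :
    TU (A ∪ Set.range fun j => emb φ ι (c j)) := by
  apply TU_elim _ (ι y)
  · refine TU.mono ?_ h0
    rintro _ ⟨w, hw | ⟨j, rfl⟩, rfl⟩
    · left
      have : Function.update w (ι y) 0 = w := by rw [← hA w hw]; simp
      simpa [this] using hw
    · right
      exact ⟨j, (update_emb φ hι _ _).symm⟩
  · rintro v (hv | ⟨a, rfl⟩) hv0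
    · exact absurd (hA v hv) hv0
    · simp only [emb_apply φ hι] at hv0 ⊢
      have ha : c a y ≠ 0 := fun h => hv0 (by rw [h, map_zero])
      obtain ⟨h2, h3⟩ := h1 a ha
      refine ⟨by rw [hφ, h2]; simp, TU.mono ?_ h3⟩
      rintro _ ⟨w, hw | ⟨j, rfl⟩, rfl⟩
      · left
        have : piv (ι y) (emb φ ι (c a)) w = w := by
          funext r; simp [piv, hA w hw]
        simpa [this] using hw
      · right
        exact ⟨j, (piv_emb φ hι _ _ _ h2).symm⟩

omit [DecidableEq ρ] in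
theorem good_mem (hφ : ∀ z, Quaternion.normSq (φ z) = (nK z : ℝ)) (hι : Function.Injective ι)
    (T : Set H) (h0 : (0 : H) ∈ T) (h1 : (1 : H) ∈ T) (hw : φ wK ∈ T) (w : Fin 4 → K)
    (h : good w) : emb φ ι w ∈ Sset (ι 0) (ι 1) T := by
  obtain ⟨h2, h3, h4⟩ := h
  refine ⟨fun r hr0 hr1 => ?_, ?_⟩
  · by_cases hr : ∃ s, ι s = r
    · obtain ⟨s, rfl⟩ := hr
      rw [emb_apply φ hι]
      fin_cases s
      · exact absurd rfl hr0
      · exact absurd rfl hr1
      · simp [h2]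
      · simp [h3]
    · exact emb_of_not φ _ _ hr
  · simp only [emb_apply φ hι]
    rcases h4 with ⟨h5, h6⟩ | ⟨h5, h6⟩
    · left
      refine ⟨by rw [h5, map_zero], ?_⟩
      unfold N01
      rw [hφ]
      rcases h6 with h6 | h6 <;> simp [h6]
    · right
      refine ⟨by rw [hφ, h5]; simp, ?_⟩
      rcases h6 with h6 | h6 | h6
      · exact ⟨0, h0, by simp [h6]⟩
      · exact ⟨1, h1, by simp [h6]⟩
      · exact ⟨_, hw, by rw [h6, map_mul]⟩

theorem TU_gadget (hφ : ∀ z, Quaternion.normSq (φ z) = (nK z : ℝ)) (hι : Function.Injective ι)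
    (T : Set H) (h0 : (0 : H) ∈ T) (h1 : (1 : H) ∈ T) (hw : φ wK ∈ T)
    (A : Set (ρ → H)) (hS : Sset (ι 0) (ι 1) T ⊆ A) (hA2 : ∀ w ∈ A, w (ι 2) = 0)
    (hA3 : ∀ w ∈ A, w (ι 3) = 0) (hA : TU A) :
    TU (A ∪ Set.range fun j => emb φ ι (G j)) := by
  have fin : ∀ c : Fin 7 → Fin 4 → K, (∀ j, good (c j)) →
      TU (A ∪ Set.range fun j => emb φ ι (c j)) := by
    intro c hc
    refine TU.mono ?_ hA
    rintro w (hw' | ⟨j, rfl⟩)
    · exact hw'
    · exact hS (good_mem φ hφ hι T h0 h1 hw _ (hc j))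
  have one : ∀ c : Fin 7 → Fin 4 → K, P1 c → TU (A ∪ Set.range fun j => emb φ ι (c j)) := by
    intro c hc
    exact TU_step φ hφ hι A 3 hA3 c (fin _ hc.1)
      fun a ha => ⟨(hc.2 a ha).1, fin _ (hc.2 a ha).2⟩
  exact TU_step φ hφ hι A 2 hA2 G (one _ check0)
    fun b hb => ⟨(check1 b hb).1, one _ (check1 b hb).2⟩

end

end Pool.Agent.H746Z.QU
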