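import Mathlib

set_option autoImplicit false

/-! From equal bases to equal invertible minors. -/

namespace Pool.Agent.H746Z.QU

open Matrix

theorem isUnit_submatrix_equiv' {R : Type} [Ring R] {m n : Type} [Fintype m] [DecidableEq m]
    [Fintype n] [DecidableEq n] (A : Matrix n n R) (e : m ≃ n) :
    IsUnit (A.submatrix e e) ↔ IsUnit A := by
  have : A.submatrix e e = (Matrix.reindexRingEquiv R e.symm) A := by
    simp [Matrix.reindexRingEquiv]
  rw [this]
  exact isUnit_map_iff _ _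

theorem isUnit_fromBlocks_one {R : Type} [Ring R] {m n : Type} [Fintype m] [DecidableEq m]
    [Fintype n] [DecidableEq n] (A : Matrix m m R) (C : Matrix n m R) :
    IsUnit (fromBlocks A 0 C (1 : Matrix n n R)) ↔ IsUnit A := by
  constructor
  · intro h
    obtain ⟨u, hu⟩ := h
    have h1 := u.mul_inv
    have h2 := u.inv_mul
    rw [hu, ← Matrix.fromBlocks_toBlocks (↑u⁻¹ : Matrix (m ⊕ n) (m ⊕ n) R),
      Matrix.fromBlocks_multiply, ← Matrix.fromBlocks_one, Matrix.fromBlocks_inj] at h1 h2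
    obtain ⟨h11, -, -, -⟩ := h1
    obtain ⟨h21, h22, -, -⟩ := h2
    simp only [Matrix.zero_mul, add_zero, Matrix.mul_zero, zero_add, Matrix.mul_one] at h11 h21 h22
    rw [h22, Matrix.zero_mul, add_zero] at h21
    exact ⟨⟨A, _, h11, h21⟩, rfl⟩
  · intro h
    obtain ⟨u, rfl⟩ := h
    refine ⟨⟨fromBlocks (↑u : Matrix m m R) 0 C 1,
      fromBlocks (↑u⁻¹ : Matrix m m R) 0 (-(C * (↑u⁻¹ : Matrix m m R))) 1, ?_, ?_⟩, rfl⟩
    · rw [Matrix.fromBlocks_multiply, ← Matrix.fromBlocks_one]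
      simp
    · rw [Matrix.fromBlocks_multiply, ← Matrix.fromBlocks_one]
      simp [Matrix.mul_assoc]

/-- The column selection attached to a minor. -/
noncomputable def sel {ρ μ κ : Type} (g : κ → ρ) (h : κ → μ) : ρ → ρ ⊕ μ :=
  Function.extend g (fun a => Sum.inr (h a)) Sum.inl

theorem isUnit_sel {R : Type} [Ring R] {ρ μ κ : Type} [Fintype ρ] [DecidableEq ρ] [Fintype κ]
    [DecidableEq κ] (D : Matrix ρ μ R) (g : κ → ρ) (hg : Function.Injective g) (h : κ → μ) :
    IsUnit ((Matrix.fromCols (1 : Matrix ρ ρ R) D).submatrix id (sel g h)) ↔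
      IsUnit (D.submatrix g h) := by
  classical
  let e : κ ⊕ {r // r ∉ Set.range g} ≃ ρ :=
    ((Equiv.ofInjective g hg).sumCongr (Equiv.refl _)).trans (Equiv.sumCompl (· ∈ Set.range g))
  have he1 : ∀ a, e (Sum.inl a) = g a := fun a => rfl
  have he2 : ∀ r, e (Sum.inr r) = r.1 := fun r => rfl
  have hs1 : ∀ a, sel g h (g a) = Sum.inr (h a) := fun a => hg.extend_apply _ _ a
  have hs2 : ∀ r : {r // r ∉ Set.range g}, sel g h r.1 = Sum.inl r.1 := fun r =>
    Function.extend_apply' _ _ _ r.2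
  rw [← isUnit_submatrix_equiv' _ e,
    ← isUnit_fromBlocks_one (D.submatrix g h) (D.submatrix (fun r : {r // r ∉ Set.range g} => r.1) h)]
  have : ((Matrix.fromCols (1 : Matrix ρ ρ R) D).submatrix id (sel g h)).submatrix e e =
      fromBlocks (D.submatrix g h) 0 (D.submatrix (fun r : {r // r ∉ Set.range g} => r.1) h) 1 := by
    refine Matrix.ext fun i j => ?_
    rcases i with i | i <;> rcases j with j | j
    · simp [he1, hs1]
    · have : g i ≠ j.1 := fun h' => j.2 ⟨i, h'⟩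
      simp [he1, he2, hs2, this]
    · simp [he1, he2, hs1]
    · simp [he2, hs2, Matrix.one_apply, Subtype.ext_iff]
  rw [this]

theorem oracle {R F : Type} [Ring R] [Field F] {ρ μ : Type} [Fintype ρ] [DecidableEq ρ]
    (D : Matrix ρ μ R) (E : Matrix ρ (ρ ⊕ μ) F)
    (hE : ∀ f : ρ → ρ ⊕ μ, IsUnit ((Matrix.fromCols (1 : Matrix ρ ρ R) D).submatrix id f) ↔
      IsUnit (E.submatrix id f)) :
    ∃ D' : Matrix ρ μ F, ∀ (k : ℕ) (g : Fin k → ρ) (h : Fin k → μ), Function.Injective g →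
      (IsUnit (D.submatrix g h) ↔ (D'.submatrix g h).det ≠ 0) := by
  have hB : IsUnit (E.submatrix id Sum.inl) := by
    rw [← hE]
    have : (Matrix.fromCols (1 : Matrix ρ ρ R) D).submatrix id Sum.inl = 1 := by
      refine Matrix.ext fun i j => ?_
      simp
    rw [this]
    exact isUnit_one
  obtain ⟨u, hu⟩ := hB
  refine ⟨(↑u⁻¹ : Matrix ρ ρ F) * E.submatrix id Sum.inr, fun k g h hg => ?_⟩
  have hE' : E = (↑u : Matrix ρ ρ F) *
      Matrix.fromCols (1 : Matrix ρ ρ F) ((↑u⁻¹ : Matrix ρ ρ F) * E.submatrix id Sum.inr) := by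
    rw [Matrix.mul_fromCols, Matrix.mul_one, ← Matrix.mul_assoc, u.mul_inv, Matrix.one_mul, hu]
    refine Matrix.ext fun i j => ?_
    rcases j with j | j <;> simp
  rw [← isUnit_sel D g hg h, hE, ← isUnit_iff_ne_zero, ← Matrix.isUnit_iff_isUnit_det,
    ← isUnit_sel _ g hg h]
  conv_lhs => rw [hE']
  have : ∀ (M : Matrix ρ (ρ ⊕ μ) F) (f : ρ → ρ ⊕ μ),
      ((↑u : Matrix ρ ρ F) * M).submatrix id f = (↑u : Matrix ρ ρ F) * M.submatrix id f := by
    intro M f
    refine Matrix.ext fun i j => ?_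
    simp [Matrix.mul_apply]
  rw [this]
  exact Units.isUnit_units_mul u _

end Pool.Agent.H746Z.QU
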