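import Pool.Agent.H746Z.QU.Forced
import Pool.Agent.H746Z.QU.Oracle

set_option autoImplicit false

/-! Three gadgets glued onto a six point line. -/

namespace Pool.Agent.H746Z.QU

open Matrix

/-- Three unit quaternions forming a regular simplex together with zero and one. -/
noncomputable def pp : Fin 3 → H :=
  ![⟨1 / 2, 1 / 2, 1 / 2, 1 / 2⟩, ⟨1 / 2, 1 / 2, 1 / 2, -1 / 2⟩,
    ⟨1 / 2, (1 + √5) / 4, (1 - √5) / 4, 0⟩]

theorem s5 : (√5 : ℝ) ^ 2 = 5 := Real.sq_sqrt (by norm_num)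

theorem pp_re (i : Fin 3) : (pp i).re = 1 / 2 := by fin_cases i <;> rfl

theorem pp_norm (i : Fin 3) : Quaternion.normSq (pp i) = 1 := by
  rw [Quaternion.normSq_def']
  fin_cases i
  · simp [pp]; norm_num
  · simp [pp]; norm_num
  · simp [pp]; linear_combination (1 / 8 : ℝ) * s5

theorem normSq_sub' (x y : H) : Quaternion.normSq (x - y) =
    (x.re - y.re) ^ 2 + (x.imI - y.imI) ^ 2 + (x.imJ - y.imJ) ^ 2 + (x.imK - y.imK) ^ 2 :=
  Quaternion.normSq_def' (x - y)

theorem pp_sub (i j : Fin 3) (h : i ≠ j) : Quaternion.normSq (pp i - pp j) = 1 := by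
  rw [normSq_sub']
  fin_cases i <;> fin_cases j <;> simp [pp] at h ⊢ <;>
    first
      | linear_combination (1 / 8 : ℝ) * s5
      | norm_num

theorem sq_of {p : H} (h1 : p.re = 1 / 2) (h2 : Quaternion.normSq p = 1) :
    p * p = (-1 : ℤ) • (1 : H) + (1 : ℤ) • p := by
  rw [Quaternion.normSq_def', h1] at h2
  have e1 : ((-1 : ℤ) • (1 : H) + (1 : ℤ) • p) = p - 1 := by simp [sub_eq_neg_add]
  rw [e1]
  have o1 : (1 : H).re = 1 := rfl
  have o2 : (1 : H).imI = 0 := rfl
  have o3 : (1 : H).imJ = 0 := rfl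
  have o4 : (1 : H).imK = 0 := rfl
  apply Quaternion.ext
  · simp [h1, o1]; linear_combination (-1 : ℝ) * h2
  · simp [h1, o2]; ring
  · simp [h1, o3]; ring
  · simp [h1, o4]; ring

/-- The embedding of the Eisenstein integers sending the generator to `pp i`. -/
noncomputable def phi (i : Fin 3) : K →+* H :=
  (QuadraticAlgebra.lift (R := ℤ) (a := -1) (b := 1) (A := H)
    ⟨pp i, sq_of (pp_re i) (pp_norm i)⟩).toRingHom

theorem phi_apply (i : Fin 3) (z : K) : phi i z = z.re • (1 : H) + z.im • pp i := rfl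

theorem phi_w (i : Fin 3) : phi i wK = pp i := by simp [phi_apply, wK]

theorem phi_norm (i : Fin 3) (z : K) : Quaternion.normSq (phi i z) = (nK z : ℝ) := by
  have h2 := pp_norm i
  have h1 := pp_re i
  rw [Quaternion.normSq_def', h1] at h2
  have e : phi i z = ⟨z.re + z.im * (pp i).re, z.im * (pp i).imI, z.im * (pp i).imJ,
      z.im * (pp i).imK⟩ := by
    rw [phi_apply]
    apply Quaternion.ext <;> simp
  have e1 := congrArg QuaternionAlgebra.re e
  have e2 := congrArg QuaternionAlgebra.imI e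
  have e3 := congrArg QuaternionAlgebra.imJ e
  have e4 := congrArg QuaternionAlgebra.imK e
  dsimp only at e1 e2 e3 e4
  rw [Quaternion.normSq_def', e1, e2, e3, e4, nK, h1]
  push_cast
  linear_combination ((z.im : ℝ)) ^ 2 * h2

/-- Row indices. -/
abbrev Row := Fin 2 ⊕ (Fin 3 × Fin 2)

/-- Column indices. -/
abbrev Col := Fin 3 × Fin 7

/-- The rows of gadget `i`. -/
def io (i : Fin 3) : Fin 4 → Row := ![Sum.inl 0, Sum.inl 1, Sum.inr (i, 0), Sum.inr (i, 1)]

theorem io_inj : ∀ i, Function.Injective (io i) := by decide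

theorem io_not : ∀ i j : Fin 3, i ≠ j → ∀ t : Fin 2, ¬ ∃ s, io i s = Sum.inr (j, t) := by decide

/-- The slopes. -/
def TT : Set H := {0, 1} ∪ Set.range pp

theorem TT_0 : ∀ t ∈ TT, N01 t := by
  rintro t ((rfl | rfl) | ⟨i, rfl⟩)
  · left; simp
  · right; simp
  · right; exact pp_norm i

theorem pp_sub_one (i : Fin 3) : Quaternion.normSq (pp i - 1) = 1 := by
  have := phi_norm i (wK - 1)
  rw [map_sub, map_one, phi_w] at this
  rw [this]
  have : nK (wK - 1) = 1 := by decide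
  simp [this]

theorem N01_neg {z : H} (h : N01 z) : N01 (-z) := by
  unfold N01 at *
  rwa [Quaternion.normSq_neg]

theorem TT_1 : ∀ t ∈ TT, ∀ t' ∈ TT, N01 (t - t') := by
  rintro t ht t' ht'
  rcases ht' with (rfl | rfl) | ⟨j, rfl⟩
  · simpa using TT_0 t ht
  · rcases ht with (rfl | rfl) | ⟨i, rfl⟩
    · right; simp
    · left; simp
    · right; exact pp_sub_one i
  · rcases ht with (rfl | rfl) | ⟨i, rfl⟩
    · right; simp [pp_norm]
    · rw [← neg_sub]; exact N01_neg (Or.inr (pp_sub_one j))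
    · by_cases h : i = j
      · left; simp [h]
      · right; exact pp_sub i j h

/-- The columns of gadget `i`. -/
def GS (i : Fin 3) : Set (Row → H) := Set.range fun j => emb (phi i) (io i) (G j)

/-- The line. -/
def SS : Set (Row → H) := Sset (Sum.inl 0) (Sum.inl 1) TT

theorem SS_van (w : Row → H) (hw : w ∈ SS) (x : Fin 3 × Fin 2) : w (Sum.inr x) = 0 :=
  hw.1 _ (by simp) (by simp)

theorem GS_van (i j : Fin 3) (h : i ≠ j) (w : Row → H) (hw : w ∈ GS i) (t : Fin 2) :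
    w (Sum.inr (j, t)) = 0 := by
  obtain ⟨a, rfl⟩ := hw
  exact emb_of_not _ _ _ (io_not i j h t)

theorem TU_add (i : Fin 3) (A : Set (Row → H)) (hS : SS ⊆ A)
    (hA : ∀ w ∈ A, ∀ t, w (Sum.inr (i, t)) = 0) (h : TU A) : TU (A ∪ GS i) :=
  TU_gadget (phi i) (phi_norm i) (io_inj i) TT (Or.inl (Or.inl rfl)) (Or.inl (Or.inr rfl))
    (Or.inr ⟨i, (phi_w i).symm⟩) A hS (fun w hw => hA w hw 0) (fun w hw => hA w hw 1) h

theorem TU_all : TU (((SS ∪ GS 0) ∪ GS 1) ∪ GS 2) := by
  have h0 : TU SS := TU_S _ _ (by simp) TT TT_0 TT_1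
  have h1 : TU (SS ∪ GS 0) := TU_add 0 _ subset_rfl (fun w hw t => SS_van w hw _) h0
  have h2 : TU ((SS ∪ GS 0) ∪ GS 1) := by
    refine TU_add 1 _ Set.subset_union_left ?_ h1
    rintro w (hw | hw) t
    · exact SS_van w hw _
    · exact GS_van 0 1 (by decide) w hw t
  refine TU_add 2 _ (Set.subset_union_left.trans Set.subset_union_left) ?_ h2
  rintro w ((hw | hw) | hw) t
  · exact SS_van w hw _
  · exact GS_van 0 2 (by decide) w hw t
  · exact GS_van 1 2 (by decide) w hw t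

/-- The quaternion matrix. -/
noncomputable def DD : Matrix Row Col H := Matrix.of fun r c => emb (phi c.1) (io c.1) (G c.2) r

theorem DD_sd (k : ℕ) (g : Fin k → Row) (h : Fin k → Col) (hu : IsUnit (DD.submatrix g h)) :
    Sd (DD.submatrix g h) = 1 := by
  have := TU_all k g (fun b => emb (phi (h b).1) (io (h b).1) (G (h b).2)) (by
    intro b
    have hb : emb (phi (h b).1) (io (h b).1) (G (h b).2) ∈ GS (h b).1 := ⟨_, rfl⟩
    generalize emb (phi (h b).1) (io (h b).1) (G (h b).2) = w at hb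
    generalize (h b).1 = i at hb
    fin_cases i
    · exact Or.inl (Or.inl (Or.inr hb))
    · exact Or.inl (Or.inr hb)
    · exact Or.inr hb)
  rcases this with h0 | h1
  · exact absurd h0 (Sd_ne_zero hu)
  · exact h1

theorem DD_io (i : Fin 3) (s : Fin 4) (j : Fin 7) : DD (io i s) (i, j) = phi i (G j s) :=
  emb_apply _ (io_inj i) _ _

theorem DD_00 (i : Fin 3) : DD (Sum.inl 0) (i, 0) = 1 := (DD_io i 0 0).trans (map_one _)
theorem DD_10 (i : Fin 3) : DD (Sum.inl 1) (i, 0) = 1 := (DD_io i 1 0).trans (map_one _)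
theorem DD_01 (i : Fin 3) : DD (Sum.inl 0) (i, 1) = 1 := (DD_io i 0 1).trans (map_one _)
theorem DD_11 (i : Fin 3) : DD (Sum.inl 1) (i, 1) = pp i := (DD_io i 1 1).trans (phi_w _)

theorem isUnit_two (a b : H) (h : a ≠ b) : IsUnit (!![1, 1; a, b] : Matrix (Fin 2) (Fin 2) H) := by
  have hd : b - a ≠ 0 := sub_ne_zero.2 h.symm
  have h1 : (!![1, 1; a, b] : Matrix (Fin 2) (Fin 2) H) = !![1, 0; a, 1] * !![1, 1; 0, b - a] := by
    simp
  rw [h1]
  refine IsUnit.mul ⟨⟨_, !![1, 0; -a, 1], ?_, ?_⟩, rfl⟩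
    ⟨⟨_, !![1, -(b - a)⁻¹; 0, (b - a)⁻¹], ?_, ?_⟩, rfl⟩
  · simp [← Matrix.one_fin_two]
  · simp [← Matrix.one_fin_two]
  · simp [mul_inv_cancel₀ hd, ← Matrix.one_fin_two]
  · simp [inv_mul_cancel₀ hd, ← Matrix.one_fin_two]

theorem not_isUnit_two : ¬ IsUnit (!![1, 1; 1, 1] : Matrix (Fin 2) (Fin 2) H) := by
  have := not_isUnit_of_ker (phi 0) (!![1, 1; 1, 1] : Matrix (Fin 2) (Fin 2) K) ![1, -1]
    (by decide) 0 rfl
  convert this using 2
  refine Matrix.ext fun i j => ?_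
  fin_cases i <;> fin_cases j <;> simp

theorem no_field {F : Type} [Field F] (X : Matrix Row Col F)
    (hX : ∀ (k : ℕ) (g : Fin k → Row) (h : Fin k → Col), Function.Injective g →
      (IsUnit (DD.submatrix g h) ↔ (X.submatrix g h).det ≠ 0)) : False := by
  have hg : ∀ i, _ := fun i => forced (phi i) (X.submatrix (io i) (fun j => (i, j))) (by
    intro k g h hg
    have := hX k (io i ∘ g) (fun a => (i, h a)) ((io_inj i).comp hg)
    have e : (GM.map (phi i)).submatrix g h = DD.submatrix (io i ∘ g) (fun a => (i, h a)) := by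
      refine Matrix.ext fun a b => ?_
      simp [GM, DD_io]
    rw [e]
    exact this)
  have hg' : ∀ i, X (Sum.inl 0) (i, 0) ≠ 0 ∧ X (Sum.inl 1) (i, 0) ≠ 0 ∧ X (Sum.inl 0) (i, 1) ≠ 0 ∧
      (X (Sum.inl 1) (i, 1) * X (Sum.inl 0) (i, 0)) ^ 2 -
        (X (Sum.inl 1) (i, 1) * X (Sum.inl 0) (i, 0)) * (X (Sum.inl 0) (i, 1) * X (Sum.inl 1) (i, 0))
        + (X (Sum.inl 0) (i, 1) * X (Sum.inl 1) (i, 0)) ^ 2 = 0 := hg
  have par : ∀ i j, X (Sum.inl 0) (i, 0) * X (Sum.inl 1) (j, 0) -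
      X (Sum.inl 0) (j, 0) * X (Sum.inl 1) (i, 0) = 0 := by
    intro i j
    have := hX 2 Sum.inl ![(i, 0), (j, 0)] Sum.inl_injective
    have e : DD.submatrix Sum.inl ![(i, 0), (j, 0)] = !![1, 1; 1, 1] := by
      refine Matrix.ext fun a b => ?_
      fin_cases a <;> fin_cases b <;> simp [DD_00, DD_10]
    rw [e, Matrix.det_fin_two] at this
    by_contra h0
    exact not_isUnit_two (this.2 h0)
  have dis : ∀ i j, i ≠ j → X (Sum.inl 0) (i, 1) * X (Sum.inl 1) (j, 1) -
      X (Sum.inl 0) (j, 1) * X (Sum.inl 1) (i, 1) ≠ 0 := by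
    intro i j hij
    have := hX 2 Sum.inl ![(i, 1), (j, 1)] Sum.inl_injective
    have e : DD.submatrix Sum.inl ![(i, 1), (j, 1)] = !![1, 1; pp i, pp j] := by
      refine Matrix.ext fun a b => ?_
      fin_cases a <;> fin_cases b <;> simp [DD_01, DD_11]
    rw [e, Matrix.det_fin_two] at this
    refine this.1 (isUnit_two _ _ fun h => ?_)
    have h2 := pp_sub i j hij
    rw [h, sub_self] at h2
    simp at h2
  set σ : F := X (Sum.inl 1) (0, 0) / X (Sum.inl 0) (0, 0) with hσ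
  have root : ∀ i, (X (Sum.inl 1) (i, 1) / X (Sum.inl 0) (i, 1)) ^ 2 -
      (X (Sum.inl 1) (i, 1) / X (Sum.inl 0) (i, 1)) * σ + σ ^ 2 = 0 := by
    intro i
    obtain ⟨h1, h2, h3, h4⟩ := hg' i
    have h0 := (hg' 0).1
    have e : σ = X (Sum.inl 1) (i, 0) / X (Sum.inl 0) (i, 0) := by
      rw [hσ, div_eq_div_iff h0 h1]
      linear_combination par i 0
    rw [e]
    field_simp
    linear_combination h4
  have ne : ∀ i j, i ≠ j → X (Sum.inl 1) (i, 1) / X (Sum.inl 0) (i, 1) ≠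
      X (Sum.inl 1) (j, 1) / X (Sum.inl 0) (j, 1) := by
    intro i j hij h
    rw [div_eq_div_iff (hg' i).2.2.1 (hg' j).2.2.1] at h
    apply dis i j hij
    linear_combination (-1 : F) * h
  have r0 := root 0
  have r1 := root 1
  have r2 := root 2
  have n01 := ne 0 1 (by decide)
  have n02 := ne 0 2 (by decide)
  have n12 := ne 1 2 (by decide)
  generalize X (Sum.inl 1) (0, 1) / X (Sum.inl 0) (0, 1) = a at *
  generalize X (Sum.inl 1) (1, 1) / X (Sum.inl 0) (1, 1) = b at *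
  generalize X (Sum.inl 1) (2, 1) / X (Sum.inl 0) (2, 1) = c at *
  have e1 : a + b - σ = 0 := by
    have : (a - b) * (a + b - σ) = 0 := by linear_combination r0 - r1
    exact (mul_eq_zero.1 this).resolve_left (sub_ne_zero.2 n01)
  have e2 : a + c - σ = 0 := by
    have : (a - c) * (a + c - σ) = 0 := by linear_combination r0 - r2
    exact (mul_eq_zero.1 this).resolve_left (sub_ne_zero.2 n02)
  exact n12 (by linear_combination e1 - e2)

theorem main :
    ∃ (r m : ℕ) (D : Matrix (Fin r) (Fin m) H),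
      (∀ (k : ℕ) (g : Fin k → Fin r) (h : Fin k → Fin m),
        IsUnit (D.submatrix g h) → Sd (D.submatrix g h) = 1) ∧
      ∀ (F : Type) [Field F], ¬ ∃ E : Matrix (Fin r) (Fin r ⊕ Fin m) F,
        ∀ f : Fin r → Fin r ⊕ Fin m,
          (IsUnit ((Matrix.fromCols (1 : Matrix (Fin r) (Fin r) H) D).submatrix id f)
            ↔ IsUnit (E.submatrix id f)) := by
  let e := Fintype.equivFin Row
  let e' := Fintype.equivFin Col
  refine ⟨_, _, DD.submatrix e.symm e'.symm, fun k g h hu => DD_sd k _ _ hu, ?_⟩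
  rintro F _ ⟨E, hE⟩
  obtain ⟨D', hD'⟩ := oracle _ E hE
  refine no_field (D'.submatrix e e') fun k g h hg => ?_
  have := hD' k (e ∘ g) (e' ∘ h) (e.injective.comp hg)
  have e1 : DD.submatrix g h = (DD.submatrix e.symm e'.symm).submatrix (e ∘ g) (e' ∘ h) := by
    refine Matrix.ext fun a b => ?_
    simp
  rw [e1]
  exact this

end Pool.Agent.H746Z.QU
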