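import Mathlib

set_option autoImplicit false

/-! Study determinant of quaternion matrices and a row elimination lemma. -/

namespace Pool.Agent.H746Z.QU

open Matrix

abbrev H := Quaternion ℝ

/-- The standard complex 2 by 2 matrix of a quaternion. -/
def chi (x : H) : Matrix (Fin 2) (Fin 2) ℂ :=
  !![Complex.mk x.re x.imI, Complex.mk x.imJ x.imK;
     Complex.mk (-x.imJ) x.imK, Complex.mk x.re (-x.imI)]

theorem chi_mul (x y : H) : chi (x * y) = chi x * chi y := by
  ext i j
  fin_cases i <;> fin_cases j <;>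
    simp [chi, Matrix.mul_apply, Fin.sum_univ_two, Complex.ext_iff] <;>
    constructor <;> ring

theorem chi_add (x y : H) : chi (x + y) = chi x + chi y := by
  ext i j
  fin_cases i <;> fin_cases j <;> simp [chi, Complex.ext_iff] <;> ring

theorem chi_zero : chi 0 = 0 := by
  ext i j
  fin_cases i <;> fin_cases j <;> simp [chi, Complex.ext_iff] <;> exact ⟨rfl, rfl⟩

theorem chi_one : chi 1 = 1 := by
  ext i j
  fin_cases i <;> fin_cases j <;> simp [chi, Complex.ext_iff] <;> exact ⟨rfl, rfl⟩

/-- `chi` as a ring homomorphism. -/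
def chiHom : H →+* Matrix (Fin 2) (Fin 2) ℂ where
  toFun := chi
  map_one' := chi_one
  map_mul' := chi_mul
  map_zero' := chi_zero
  map_add' := chi_add

theorem chi_sum {ι : Type*} (s : Finset ι) (f : ι → H) :
    chi (∑ i ∈ s, f i) = ∑ i ∈ s, chi (f i) := map_sum chiHom f s

theorem det_chi (x : H) : (chi x).det = (Quaternion.normSq x : ℝ) := by
  rw [Quaternion.normSq_def']
  apply Complex.ext
  · rw [Complex.ofReal_re]
    simp [chi, Matrix.det_fin_two]
    ring
  · rw [Complex.ofReal_im]
    simp [chi, Matrix.det_fin_two]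
    ring

/-- The complex matrix of a quaternion matrix. -/
def cx {m n : Type} (A : Matrix m n H) : Matrix (m × Fin 2) (n × Fin 2) ℂ :=
  Matrix.of fun p q => chi (A p.1 q.1) p.2 q.2

theorem cx_mul {l m n : Type} [Fintype m] (A : Matrix l m H) (B : Matrix m n H) :
    cx (A * B) = cx A * cx B := by
  ext p q
  simp only [cx, Matrix.of_apply, Matrix.mul_apply, chi_sum, chi_mul, Matrix.sum_apply,
    Fintype.sum_prod_type]

theorem cx_one {n : Type} [DecidableEq n] : cx (1 : Matrix n n H) = 1 := by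
  ext ⟨i, a⟩ ⟨j, b⟩
  by_cases h : i = j
  · subst h
    simp [cx, chi_one, Matrix.one_apply]
  · simp [cx, Matrix.one_apply, h, chi_zero]

/-- The Study determinant. -/
noncomputable def Sd {n : Type} [Fintype n] [DecidableEq n] (A : Matrix n n H) : ℂ := (cx A).det

section
variable {m n : Type} [Fintype m] [DecidableEq m] [Fintype n] [DecidableEq n]

theorem Sd_mul (A B : Matrix n n H) : Sd (A * B) = Sd A * Sd B := by
  simp [Sd, cx_mul]

theorem Sd_one : Sd (1 : Matrix n n H) = 1 := by simp [Sd, cx_one]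

theorem Sd_ne_zero {A : Matrix n n H} (h : IsUnit A) : Sd A ≠ 0 := by
  obtain ⟨B, hB⟩ := h.exists_right_inv
  intro h0
  have := Sd_mul A B
  rw [hB, Sd_one, h0, zero_mul] at this
  exact one_ne_zero this

theorem Sd_submatrix (A : Matrix n n H) (e e' : m ≃ n) : Sd (A.submatrix e e') = Sd A := by
  have h1 : cx (A.submatrix e e') =
      ((cx A).submatrix (e.prodCongr (Equiv.refl (Fin 2))) (e.prodCongr (Equiv.refl (Fin 2)))).submatrix
        id (Equiv.prodCongrLeft (fun _ : Fin 2 => e'.trans e.symm)) := by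
    ext ⟨i, a⟩ ⟨j, b⟩
    simp [cx]
  rw [Sd, h1, Matrix.det_permute', Matrix.det_submatrix_equiv_self, Equiv.Perm.sign_prodCongrLeft]
  simp [Sd]

theorem Sd_fromBlocks₂₁ (A : Matrix m m H) (B : Matrix m n H) (D : Matrix n n H) :
    Sd (fromBlocks A B 0 D) = Sd A * Sd D := by
  have h1 : cx (fromBlocks A B 0 D) =
      (fromBlocks (cx A) (cx B) 0 (cx D)).submatrix (Equiv.sumProdDistrib m n (Fin 2))
        (Equiv.sumProdDistrib m n (Fin 2)) := by
    ext ⟨i, a⟩ ⟨j, b⟩
    rcases i with i | i <;> rcases j with j | j <;> simp [cx, chi_zero]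
  rw [Sd, h1, Matrix.det_submatrix_equiv_self, Matrix.det_fromBlocks_zero₂₁]
  rfl

theorem Sd_fromBlocks₁₂ (A : Matrix m m H) (C : Matrix n m H) (D : Matrix n n H) :
    Sd (fromBlocks A 0 C D) = Sd A * Sd D := by
  have h1 : cx (fromBlocks A 0 C D) =
      (fromBlocks (cx A) 0 (cx C) (cx D)).submatrix (Equiv.sumProdDistrib m n (Fin 2))
        (Equiv.sumProdDistrib m n (Fin 2)) := by
    ext ⟨i, a⟩ ⟨j, b⟩
    rcases i with i | i <;> rcases j with j | j <;> simp [cx, chi_zero]
  rw [Sd, h1, Matrix.det_submatrix_equiv_self, Matrix.det_fromBlocks_zero₁₂]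
  rfl

theorem Sd_unit (a : H) :
    Sd (Matrix.of fun (_ _ : Unit) => a) = (Quaternion.normSq a : ℝ) := by
  have h1 : cx (Matrix.of fun (_ _ : Unit) => a) =
      (chi a).submatrix (Equiv.punitProd (Fin 2)) (Equiv.punitProd (Fin 2)) := by
    ext ⟨i, a⟩ ⟨j, b⟩
    simp [cx]
  rw [Sd, h1, Matrix.det_submatrix_equiv_self, det_chi]

theorem Sd_zero_row (A : Matrix n n H) (i : n) (h : ∀ j, A i j = 0) : Sd A = 0 := by
  apply Matrix.det_eq_zero_of_row_eq_zero (i, 0)
  intro q
  simp [cx, h, chi_zero]

/-- Schur complement with a one by one pivot. -/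
theorem Sd_pivot (a : H) (ha : a ≠ 0) (B : Matrix Unit n H) (C : Matrix n Unit H)
    (D : Matrix n n H) :
    Sd (fromBlocks (Matrix.of fun (_ _ : Unit) => a) B C D) =
      (Quaternion.normSq a : ℝ) *
        Sd (Matrix.of fun i j => D i j - C i () * (a⁻¹ * B () j)) := by
  have h1 : fromBlocks (Matrix.of fun (_ _ : Unit) => a) B C D =
      fromBlocks (Matrix.of fun (_ _ : Unit) => a) 0 C
        (Matrix.of fun i j => D i j - C i () * (a⁻¹ * B () j)) *
      fromBlocks 1 (Matrix.of fun (_ : Unit) j => a⁻¹ * B () j) 0 1 := by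
    rw [Matrix.fromBlocks_multiply]
    refine Matrix.ext fun i j => ?_
    rcases i with i | i <;> rcases j with j | j <;>
      simp [Matrix.mul_apply, ← mul_assoc, mul_inv_cancel₀ ha]
  rw [h1, Sd_mul, Sd_fromBlocks₁₂, Sd_fromBlocks₂₁, Sd_one, Sd_one, Sd_unit]
  ring

end

/-- All square matrices cut out of vectors of `C` have Study determinant zero or one. -/
def TU {ρ : Type} (C : Set (ρ → H)) : Prop :=
  ∀ (k : ℕ) (g : Fin k → ρ) (c : Fin k → ρ → H), (∀ b, c b ∈ C) →
    Sd (Matrix.of fun a b => c b (g a)) = 0 ∨ Sd (Matrix.of fun a b => c b (g a)) = 1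

theorem TU.mono {ρ : Type} {C C' : Set (ρ → H)} (h : C ⊆ C') (h' : TU C') : TU C :=
  fun k g c hc => h' k g c fun b => h (hc b)

theorem TU_zero {ρ : Type} : TU ({0} : Set (ρ → H)) := by
  intro k g c hc
  rcases k with _ | k
  · right
    simp [Sd]
  · left
    apply Sd_zero_row _ 0
    intro j
    have := hc j
    rw [Set.mem_singleton_iff] at this
    simp [this]

/-- The pivot operation on vectors. -/
noncomputable def piv {ρ : Type} (y : ρ) (v w : ρ → H) : ρ → H :=
  fun i => w i - v i * ((v y)⁻¹ * w y)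

theorem TU_elim {ρ : Type} [DecidableEq ρ] (C : Set (ρ → H)) (y : ρ)
    (h0 : TU ((fun w => Function.update w y 0) '' C))
    (h1 : ∀ v ∈ C, v y ≠ 0 → Quaternion.normSq (v y) = 1 ∧ TU (piv y v '' C)) : TU C := by
  intro k g c hc
  by_cases hy : ∃ a, g a = y
  · obtain ⟨a0, ha0⟩ := hy
    by_cases hb : ∃ b, c b y ≠ 0
    · obtain ⟨b0, hb0⟩ := hb
      obtain ⟨hn, hT⟩ := h1 (c b0) (hc b0) hb0
      rcases k with _ | k
      · exact a0.elim0
      let e : Fin (k + 1) → (Unit ⊕ Fin k ≃ Fin (k + 1)) := fun a =>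
        (Equiv.sumComm Unit (Fin k)).trans
          ((Equiv.optionEquivSumPUnit (Fin k)).symm.trans (finSuccEquiv' a).symm)
      have he1 : ∀ a u, e a (Sum.inl u) = a := by
        intro a u; simp [e]
      have he2 : ∀ a i, e a (Sum.inr i) = a.succAbove i := by
        intro a i; simp [e]
      have hM : (Matrix.of fun a b => c b (g a)).submatrix (e a0) (e b0) =
          fromBlocks (Matrix.of fun (_ _ : Unit) => c b0 y)
            (Matrix.of fun _ j => c (b0.succAbove j) y)
            (Matrix.of fun i _ => c b0 (g (a0.succAbove i)))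
            (Matrix.of fun i j => c (b0.succAbove j) (g (a0.succAbove i))) := by
        refine Matrix.ext fun i j => ?_
        rcases i with i | i <;> rcases j with j | j <;> simp [he1, he2, ha0]
      rw [← Sd_submatrix _ (e a0) (e b0), hM, Sd_pivot _ hb0, hn]
      have := hT k (fun i => g (a0.succAbove i)) (fun j => piv y (c b0) (c (b0.succAbove j)))
        (fun j => ⟨_, hc _, rfl⟩)
      simpa [piv] using this
    · left
      apply Sd_zero_row _ a0
      intro j
      push Not at hb
      simp [ha0, hb j]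
  · push Not at hy
    have := h0 k g (fun b => Function.update (c b) y 0) (fun b => ⟨_, hc b, rfl⟩)
    have h2 : (Matrix.of fun a b => Function.update (c b) y 0 (g a)) =
        Matrix.of fun a b => c b (g a) := by
      refine Matrix.ext fun a b => ?_
      simp [Function.update_of_ne (hy a)]
    rwa [h2] at this

end Pool.Agent.H746Z.QU
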